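import Mathlib

open Finset

namespace Pool.Agent.Results.MP_6532c6_co.Separation

/-! ### Definitions used in the statement -/

/-- A partition of a positive integer: a nonempty finite multiset of positive integers. -/
def IsPart (p : Multiset ℕ) : Prop := p ≠ 0 ∧ ∀ a ∈ p, 0 < a

/-- `ν` arises from `μ` by replacing one part by a partition of that part. -/
def SplitStep (μ ν : Multiset ℕ) : Prop :=
  ∃ (a : ℕ) (Q : Multiset ℕ), a ∈ μ ∧ IsPart Q ∧ Q.sum = a ∧ ν = μ.erase a + Q

/-- `ν` is a refinement of `μ`: it arises from `μ` by repeated splitting steps. -/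
def IsRefinement (μ ν : Multiset ℕ) : Prop := Relation.ReflTransGen SplitStep μ ν

/-- The order on partitions: `p = {k₁, …, k_q} ≤ r` if `r` is a refinement of
`{k₁ + d₁, …, k_q + d_q}` for some `d₁, …, d_q ≥ 0`. -/
def Below (p r : Multiset ℕ) : Prop :=
  ∃ μ : Multiset ℕ, Multiset.Rel (fun a b => a ≤ b) p μ ∧ IsRefinement μ r

/-- `L` is a `p`-assignment: every list has exactly `k` colours, `k` the sum of `p`, and the set
of all colours in lists can be split into pairwise disjoint sets `C₁, …, C_q` with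
`|L(v) ∩ C_i| = k_i`, where `p = {k₁, …, k_q}`. -/
def IsAssignment {V : Type} (p : Multiset ℕ) (L : V → Finset ℕ) : Prop :=
  (∀ v, (L v).card = p.sum) ∧
  ∃ (q : ℕ) (k : Fin q → ℕ) (C : Fin q → Set ℕ),
    Multiset.map k Finset.univ.val = p ∧
    (∀ i j, i ≠ j → Disjoint (C i) (C j)) ∧
    (⋃ v, (L v : Set ℕ)) = ⋃ i, C i ∧
    ∀ v i, ((L v : Set ℕ) ∩ C i).ncard = k i

/-- `G` has a proper colouring with colours from the lists `L`. -/
def IsListColourable {V : Type} (G : SimpleGraph V) (L : V → Finset ℕ) : Prop :=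
  ∃ f : V → ℕ, (∀ v, f v ∈ L v) ∧ ∀ u v, G.Adj u v → f u ≠ f v

/-- `G` is `p`-choosable. -/
def Choosable {V : Type} (p : Multiset ℕ) (G : SimpleGraph V) : Prop :=
  ∀ L : V → Finset ℕ, IsAssignment p L → IsListColourable G L

/-! ### The combinatorial core -/

/-- For arbitrary families `F s` of classes there is a class `c` such that all groups `s` with
`c ∈ F s` can be blocked within the budgets. -/
lemma kill {ι : Type} [DecidableEq ι] {R : ι → Type} [∀ a, DecidableEq (R a)]
    (c₀ : ∀ a, R a) {t : ℕ} (m : Fin t → ℕ) (k : ∀ a, R a → ℕ)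
    (hle : ∀ a (ρ : Fin t → Option (R a)), ∃ i,
      (∑ s ∈ univ.filter (fun s => ρ s = some i), m s) < k a i)
    (F : Fin t → Set (∀ a, R a)) (T : Finset ι) :
    ∃ (c : ∀ a, R a) (h : Fin t → ∀ a, R a),
      (∀ s, (∃ x ∈ F s, ∀ b ∈ T, x b = c b) → h s ∈ F s) ∧
      ∀ a ∈ T, ∀ S : Finset (Fin t),
        (∀ s ∈ S, (∃ x ∈ F s, ∀ b ∈ T, x b = c b) ∧ h s a = c a) →
        ∑ s ∈ S, m s < k a (c a) := by
  classical
  induction T using Finset.induction_on with
  | empty =>
    refine ⟨c₀, fun s => if h : ∃ x, x ∈ F s then h.choose else c₀, ?_, ?_⟩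
    · rintro s ⟨x, hx, _⟩
      have h : ∃ x, x ∈ F s := ⟨x, hx⟩
      simp only [h, dif_pos]
      exact h.choose_spec
    · intro a ha; simp at ha
  | @insert a₀ T ha₀ ih =>
    obtain ⟨c, h, h1, h2⟩ := ih
    -- the owner of a group
    let ρ : Fin t → Option (R a₀) := fun s =>
      if (∃ x ∈ F s, ∀ b ∈ T, x b = c b) ∧
          (∀ y ∈ F s, (∀ b ∈ T, y b = h s b) → y a₀ = h s a₀) then some (h s a₀) else none
    obtain ⟨i, hi⟩ := hle a₀ ρ
    let h' : Fin t → ∀ a, R a := fun s =>
      if hex : ∃ y ∈ F s, (∀ b ∈ T, y b = h s b) ∧ y a₀ ≠ i then hex.choose else h s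
    have hh'T : ∀ s, ∀ b ∈ T, h' s b = h s b := by
      intro s b hb
      by_cases hex : ∃ y ∈ F s, (∀ b ∈ T, y b = h s b) ∧ y a₀ ≠ i
      · simp only [h', hex, dif_pos]
        exact hex.choose_spec.2.1 b hb
      · simp only [h', hex, dif_neg, not_false_eq_true]
    have hact : ∀ s, (∃ x ∈ F s, ∀ b ∈ insert a₀ T, x b = Function.update c a₀ i b) →
        ∃ x ∈ F s, ∀ b ∈ T, x b = c b := by
      rintro s ⟨x, hx, hxc⟩
      refine ⟨x, hx, fun b hb => ?_⟩
      have hne : b ≠ a₀ := fun h => ha₀ (h ▸ hb)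
      rw [hxc b (mem_insert_of_mem hb), Function.update_of_ne hne]
    refine ⟨Function.update c a₀ i, h', ?_, ?_⟩
    · intro s hs
      by_cases hex : ∃ y ∈ F s, (∀ b ∈ T, y b = h s b) ∧ y a₀ ≠ i
      · simp only [h', hex, dif_pos]
        exact hex.choose_spec.1
      · simp only [h', hex, dif_neg, not_false_eq_true]
        exact h1 s (hact s hs)
    · intro a ha S hS
      rcases mem_insert.mp ha with rfl | haT
      · rw [Function.update_self]
        refine lt_of_le_of_lt (sum_le_sum_of_subset ?_) hi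
        intro s hs
        obtain ⟨hs1, hs2⟩ := hS s hs
        rw [Function.update_self] at hs2
        have hex : ¬ ∃ y ∈ F s, (∀ b ∈ T, y b = h s b) ∧ y a ≠ i := by
          intro hex
          simp only [h', hex, dif_pos] at hs2
          exact hex.choose_spec.2.2 hs2
        have hs3 : h s a = i := by
          simpa only [h', hex, dif_neg, not_false_eq_true] using hs2
        have hcond : (∃ x ∈ F s, ∀ b ∈ T, x b = c b) ∧
            (∀ y ∈ F s, (∀ b ∈ T, y b = h s b) → y a = h s a) := by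
          refine ⟨hact s hs1, fun y hy hyT => ?_⟩
          by_contra hne
          exact hex ⟨y, hy, hyT, fun h => hne (h.trans hs3.symm)⟩
        simp only [mem_filter, mem_univ, true_and, ρ]
        rw [if_pos hcond, hs3]
      · have hne : a ≠ a₀ := fun h => ha₀ (h ▸ haT)
        rw [Function.update_of_ne hne]
        refine h2 a haT S (fun s hs => ?_)
        obtain ⟨hs1, hs2⟩ := hS s hs
        rw [Function.update_of_ne hne, hh'T s a haT] at hs2
        exact ⟨hact s hs1, hs2⟩

/-! ### The infinite graph -/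

theorem exists_infinite {ι : Type} [Fintype ι] [DecidableEq ι] {R : ι → Type}
    [∀ a, DecidableEq (R a)] [∀ a, Countable (R a)]
    (c₀ : ∀ a, R a) {t : ℕ} (m : Fin t → ℕ) (k : ∀ a, R a → ℕ) (hk : ∀ a i, 0 < k a i)
    (hle : ∀ a (ρ : Fin t → Option (R a)), ∃ i,
      (∑ s ∈ univ.filter (fun s => ρ s = some i), m s) < k a i) :
    ∃ (cls : ℕ → ∀ a, R a) (Lst : ℕ → Fin t → Finset ℕ) (nb : ℕ → Finset ℕ),
      (∀ v s, (Lst v s).card = m s) ∧ (∀ v, ∀ u ∈ nb v, u < v) ∧
      (∀ v a, ((nb v).filter (fun u => cls u a = cls v a)).card < k a (cls v a)) ∧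
      ¬ ∃ f : ℕ → Fin t × ℕ, (∀ v, (f v).2 ∈ Lst v (f v).1) ∧ ∀ v, ∀ u ∈ nb v, f u ≠ f v := by
  classical
  let Req : Type := (∀ a, R a) × (∀ s : Fin t, {F : Finset ℕ // F.card = m s}) × Finset ℕ
  have hne : Nonempty (Req × ℕ) :=
    ⟨((c₀, (fun s => ⟨range (m s), by simp⟩), ∅), 0)⟩
  obtain ⟨g, hg⟩ := exists_surjective_nat (Req × ℕ)
  let cls : ℕ → ∀ a, R a := fun v => (g v).1.1
  let Lst : ℕ → Fin t → Finset ℕ := fun v s => ((g v).1.2.1 s).1
  let N0 : ℕ → Finset ℕ := fun v => (g v).1.2.2
  let Valid : ℕ → Prop := fun v => (∀ u ∈ N0 v, u < v) ∧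
    ∀ a, ((N0 v).filter (fun u => cls u a = cls v a)).card < k a (cls v a)
  let nb : ℕ → Finset ℕ := fun v => if Valid v then N0 v else ∅
  refine ⟨cls, Lst, nb, fun v s => ((g v).1.2.1 s).2, ?_, ?_, ?_⟩
  · intro v u hu
    by_cases hv : Valid v
    · simp only [nb, if_pos hv] at hu
      exact hv.1 u hu
    · simp [nb, if_neg hv] at hu
  · intro v a
    by_cases hv : Valid v
    · simp only [nb, if_pos hv]
      exact hv.2 a
    · simp only [nb, if_neg hv, filter_empty, card_empty]
      exact hk _ _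
  · rintro ⟨f, hf1, hf2⟩
    -- colours of the group `s` used in the class `c`
    let U : (∀ a, R a) → Fin t → Set ℕ := fun c s => {x | ∃ v, cls v = c ∧ f v = (s, x)}
    let F : Fin t → Set (∀ a, R a) := fun s => {c | (U c s).Infinite}
    obtain ⟨c, h, h1, h2⟩ := kill c₀ m k hle F univ
    have hact : ∀ s, c ∈ F s ↔ ∃ x ∈ F s, ∀ b ∈ (univ : Finset ι), x b = c b := by
      intro s
      constructor
      · intro hc; exact ⟨c, hc, fun _ _ => rfl⟩
      · rintro ⟨x, hx, hxc⟩
        have : x = c := funext fun b => hxc b (mem_univ b)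
        rwa [← this]
    -- the lists
    have hX : ∀ s, ∃ X : Finset ℕ, X.card = m s ∧
        (c ∈ F s → ∀ x ∈ X, x ∈ U (h s) s) ∧ (c ∉ F s → ∀ x ∈ X, x ∉ U c s) := by
      intro s
      by_cases hc : c ∈ F s
      · have hinf : (U (h s) s).Infinite := h1 s ((hact s).mp hc)
        obtain ⟨X, hX1, hX2⟩ := hinf.exists_subset_card_eq (m s)
        exact ⟨X, hX2, fun _ x hx => hX1 hx, fun hn => absurd hc hn⟩
      · have hfin : (U c s).Finite := Set.not_infinite.mp hc
        obtain ⟨X, hX1, hX2⟩ := hfin.infinite_compl.exists_subset_card_eq (m s)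
        exact ⟨X, hX2, fun hn => absurd hn hc, fun _ x hx => hX1 hx⟩
    choose X hXcard hXin hXout using hX
    -- the neighbours
    have hu : ∀ s x, ∃ u, (c ∈ F s → x ∈ X s → cls u = h s ∧ f u = (s, x)) := by
      intro s x
      by_cases hc : c ∈ F s ∧ x ∈ X s
      · obtain ⟨u, hu⟩ := hXin s hc.1 x hc.2
        exact ⟨u, fun _ _ => hu⟩
      · exact ⟨0, fun h1 h2 => absurd ⟨h1, h2⟩ hc⟩
    choose u hu using hu
    let Nn : Finset ℕ := (univ.filter (fun s => c ∈ F s)).biUnion (fun s => (X s).image (u s))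
    -- a vertex for this request
    have hreq : ∃ v, (∀ w ∈ Nn, w < v) ∧ (g v).1 = (c, (fun s => ⟨X s, hXcard s⟩), Nn) := by
      have hinj : Function.Injective
          (fun j : ℕ => (hg ((c, (fun s => ⟨X s, hXcard s⟩), Nn), j)).choose) := by
        intro i j hij
        have hi := (hg ((c, (fun s => ⟨X s, hXcard s⟩), Nn), i)).choose_spec
        have hj := (hg ((c, (fun s => ⟨X s, hXcard s⟩), Nn), j)).choose_spec
        simp only at hij
        rw [hij, hj] at hi
        exact (congrArg Prod.snd hi).symm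
      have hinf := Set.infinite_range_of_injective hinj
      obtain ⟨v, hv, hv2⟩ := hinf.exists_gt (Nn.sup id)
      obtain ⟨j, rfl⟩ := hv
      refine ⟨_, fun w hw => lt_of_le_of_lt (Finset.le_sup (f := id) hw) hv2, ?_⟩
      exact congrArg Prod.fst (hg ((c, (fun s => ⟨X s, hXcard s⟩), Nn), j)).choose_spec
    obtain ⟨v, hv1, hv2⟩ := hreq
    have hcls : cls v = c := congrArg Prod.fst hv2
    have hLst : ∀ s, Lst v s = X s := by
      intro s
      have := congrArg (fun r : Req => (r.2.1 s).1) hv2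
      exact this
    have hN0 : N0 v = Nn := congrArg (fun r : Req => r.2.2) hv2
    have hvalid : Valid v := by
      refine ⟨fun w hw => hv1 w (hN0 ▸ hw), fun a => ?_⟩
      rw [hN0, hcls]
      -- number of neighbours of the same class in coordinate `a`
      let S : Finset (Fin t) := univ.filter (fun s => c ∈ F s ∧ h s a = c a)
      have hsub : Nn.filter (fun w => cls w a = c a) ⊆ S.biUnion (fun s => (X s).image (u s)) := by
        intro w hw
        obtain ⟨hw1, hw2⟩ := mem_filter.mp hw
        obtain ⟨s, hs, hws⟩ := mem_biUnion.mp hw1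
        obtain ⟨x, hx, rfl⟩ := mem_image.mp hws
        have hc : c ∈ F s := (mem_filter.mp hs).2
        obtain ⟨e1, _⟩ := hu s x hc hx
        refine mem_biUnion.mpr ⟨s, ?_, mem_image_of_mem _ hx⟩
        simp only [S, mem_filter, mem_univ, true_and]
        exact ⟨hc, by rw [← e1]; exact hw2⟩
      calc (Nn.filter (fun w => cls w a = c a)).card
          ≤ (S.biUnion (fun s => (X s).image (u s))).card := card_le_card hsub
        _ ≤ ∑ s ∈ S, ((X s).image (u s)).card := card_biUnion_le
        _ ≤ ∑ s ∈ S, m s := sum_le_sum fun s _ => card_image_le.trans (hXcard s).le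
        _ < k a (c a) := by
            refine h2 a (mem_univ a) S (fun s hs => ?_)
            simp only [S, mem_filter, mem_univ, true_and] at hs
            exact ⟨(hact s).mp hs.1, hs.2⟩
    have hnb : nb v = Nn := by simp only [nb, if_pos hvalid, hN0]
    have hfv := hf1 v
    rw [hLst] at hfv
    by_cases hc : c ∈ F (f v).1
    · obtain ⟨_, e2⟩ := hu _ _ hc hfv
      refine hf2 v (u (f v).1 (f v).2) ?_ (by rw [e2])
      rw [hnb]
      exact mem_biUnion.mpr ⟨(f v).1, by simp [hc], mem_image_of_mem _ hfv⟩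
    · exact hXout _ hc _ hfv ⟨v, hcls, rfl⟩


/-! ### Compactness -/

/-- If every finite initial segment has a proper colouring from the lists, then the whole graph
has one. -/
lemma compactness {t : ℕ} (Lst : ℕ → Fin t → Finset ℕ) (nb : ℕ → Finset ℕ)
    (h : ∀ n : ℕ, ∃ f : ℕ → Fin t × ℕ, (∀ v, (f v).2 ∈ Lst v (f v).1) ∧
      ∀ v < n, ∀ u ∈ nb v, f u ≠ f v) :
    ∃ f : ℕ → Fin t × ℕ, (∀ v, (f v).2 ∈ Lst v (f v).1) ∧ ∀ v, ∀ u ∈ nb v, f u ≠ f v := by
  classical
  let A : ℕ → Type := fun v => {y : Fin t × ℕ // y.2 ∈ Lst v y.1}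
  have hfin : ∀ v, Finite (A v) := by
    intro v
    have : {y : Fin t × ℕ | y.2 ∈ Lst v y.1}.Finite := by
      refine (Set.finite_univ.prod (Finset.finite_toSet ((univ : Finset (Fin t)).biUnion (Lst v)))).subset ?_
      rintro ⟨s, x⟩ hx
      refine ⟨Set.mem_univ _, ?_⟩
      simp only [coe_biUnion, Set.mem_iUnion]
      exact ⟨s, by simp, hx⟩
    exact this
  let : ∀ v, TopologicalSpace (A v) := fun v => ⊥
  have : ∀ v, DiscreteTopology (A v) := fun v => ⟨rfl⟩
  have : ∀ v, CompactSpace (A v) := fun v => by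
    have := hfin v
    exact Finite.compactSpace
  let K : ℕ → Set (∀ v, A v) := fun n => {f | ∀ v < n, ∀ u ∈ nb v, (f u).1 ≠ (f v).1}
  have hclosed : ∀ n, IsClosed (K n) := by
    intro n
    have : K n = ⋂ v, ⋂ (_ : v < n), ⋂ u, ⋂ (_ : u ∈ nb v), {f | (f u).1 ≠ (f v).1} := by
      ext f; simp [K]
    rw [this]
    refine isClosed_iInter fun v => isClosed_iInter fun _ => isClosed_iInter fun u =>
      isClosed_iInter fun _ => ?_
    have : {f : ∀ v, A v | (f u).1 ≠ (f v).1}
        = (fun f : ∀ v, A v => (f u, f v)) ⁻¹' {p : A u × A v | p.1.1 ≠ p.2.1} := rfl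
    rw [this]
    exact (isClosed_discrete _).preimage ((continuous_apply u).prodMk (continuous_apply v))
  have hne : (⋂ n, K n).Nonempty := by
    refine IsCompact.nonempty_iInter_of_sequence_nonempty_isCompact_isClosed K ?_ ?_ ?_ hclosed
    · intro n f hf v hv u hu
      exact hf v (by omega) u hu
    · intro n
      obtain ⟨f, hf1, hf2⟩ := h n
      exact ⟨fun v => ⟨f v, hf1 v⟩, fun v hv u hu => hf2 v hv u hu⟩
    · exact (hclosed 0).isCompact
  obtain ⟨f, hf⟩ := hne
  refine ⟨fun v => (f v).1, fun v => (f v).2, fun v u hu => ?_⟩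
  have := Set.mem_iInter.mp hf (v + 1)
  exact this v (by omega) u hu

/-! ### Finite graphs -/

/-- the graph on `Fin n` with earlier neighbours given by `nb` -/
def segGraph (nb : ℕ → Finset ℕ) (hnb : ∀ v, ∀ u ∈ nb v, u < v) (n : ℕ) :
    SimpleGraph (Fin n) where
  Adj u v := u.1 ∈ nb v.1 ∨ v.1 ∈ nb u.1
  symm := ⟨fun _ _ h => h.symm⟩
  loopless := ⟨fun v h => by rcases h with h | h <;> exact absurd (hnb _ _ h) (lt_irrefl _)⟩

/-- greedy colouring -/
lemma greedy (nb : ℕ → Finset ℕ) (hnb : ∀ v, ∀ u ∈ nb v, u < v) {R : Type} [DecidableEq R]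
    (cls : ℕ → R) (A : ℕ → Finset ℕ)
    (n : ℕ) (hbud : ∀ v < n, ((nb v).filter (fun u => cls u = cls v)).card < (A v).card) :
    ∃ f : ℕ → ℕ, (∀ v < n, f v ∈ A v) ∧
      ∀ v < n, ∀ u ∈ nb v, cls u = cls v → f u ≠ f v := by
  classical
  induction n with
  | zero => exact ⟨fun _ => 0, by simp, by simp⟩
  | succ n ih =>
    obtain ⟨f, h1, h2⟩ := ih (fun v hv => hbud v (by omega))
    have hlt : (((nb n).filter (fun u => cls u = cls n)).image f).card < (A n).card :=
      lt_of_le_of_lt card_image_le (hbud n (by omega))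
    obtain ⟨x, hx1, hx2⟩ := exists_mem_notMem_of_card_lt_card hlt
    refine ⟨Function.update f n x, ?_, ?_⟩
    · intro v hv
      rcases Nat.lt_succ_iff_lt_or_eq.mp hv with hv | rfl
      · rw [Function.update_of_ne hv.ne]; exact h1 v hv
      · rw [Function.update_self]; exact hx1
    · intro v hv u hu hcl
      have huv := hnb v u hu
      rcases Nat.lt_succ_iff_lt_or_eq.mp hv with hv | rfl
      · rw [Function.update_of_ne hv.ne, Function.update_of_ne (by omega)]
        exact h2 v hv u hu hcl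
      · rw [Function.update_self, Function.update_of_ne (by omega)]
        intro h
        apply hx2
        rw [← h]
        exact mem_image_of_mem _ (mem_filter.mpr ⟨hu, hcl⟩)

/-! ### Multisets and indexings -/

lemma exists_indexing (p : Multiset ℕ) :
    ∃ (q : ℕ) (k : Fin q → ℕ), Multiset.map k Finset.univ.val = p := by
  obtain ⟨l, rfl⟩ := Quot.exists_rep p
  refine ⟨l.length, l.get, ?_⟩
  rw [Fin.univ_val_map, List.ofFn_get]
  rfl

lemma exists_matching {q q' : ℕ} (k : Fin q → ℕ) (k' : Fin q' → ℕ)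
    (h : Multiset.map k Finset.univ.val = Multiset.map k' Finset.univ.val) :
    ∃ σ : Fin q ≃ Fin q', ∀ i, k' (σ i) = k i := by
  classical
  have hfib : ∀ x, Nonempty ({i // k i = x} ≃ {i // k' i = x}) := by
    intro x
    rw [← Fintype.card_eq]
    have h1 := congrArg (Multiset.count x) h
    rw [Multiset.count_map, Multiset.count_map] at h1
    have e : ∀ {n : ℕ} (f : Fin n → ℕ), Fintype.card {i // f i = x}
        = Multiset.card (Multiset.filter (fun a => x = f a) Finset.univ.val) := by
      intro n f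
      rw [Fintype.card_subtype]
      have : (univ.filter (fun i => f i = x)) = univ.filter (fun i => x = f i) := by
        ext i; simp [eq_comm]
      rw [this]
      rfl
    rw [e k, e k', h1]
  exact ⟨Equiv.ofFiberEquiv fun x => (hfib x).some, fun i => Equiv.ofFiberEquiv_map _ i⟩

/-! ### Constructing the order relation -/

lemma splitStep_add {κ μ ν : Multiset ℕ} (h : SplitStep μ ν) : SplitStep (κ + μ) (κ + ν) := by
  obtain ⟨a, Q, ha, hQ, hs, rfl⟩ := h
  refine ⟨a, Q, Multiset.mem_add.mpr (Or.inr ha), hQ, hs, ?_⟩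
  rw [Multiset.erase_add_right_pos _ ha, add_assoc]

lemma isRefinement_add {κ μ ν : Multiset ℕ} (h : IsRefinement μ ν) :
    IsRefinement (κ + μ) (κ + ν) := by
  unfold IsRefinement at h ⊢
  induction h with
  | refl => exact Relation.ReflTransGen.refl
  | tail _ h2 ih => exact Relation.ReflTransGen.tail ih (splitStep_add h2)

lemma isRefinement_sum {ι : Type} [DecidableEq ι] (I : Finset ι) (P : ι → Multiset ℕ)
    (hP : ∀ i ∈ I, IsPart (P i)) :
    IsRefinement (Multiset.map (fun i => (P i).sum) I.val) (∑ i ∈ I, P i) := by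
  induction I using Finset.induction_on with
  | empty => exact Relation.ReflTransGen.refl
  | @insert a I ha ih =>
    rw [Finset.insert_val_of_notMem ha, Multiset.map_cons, Finset.sum_insert ha]
    have h1 := ih (fun i hi => hP i (mem_insert_of_mem hi))
    have h2 : SplitStep ((P a).sum ::ₘ Multiset.map (fun i => (P i).sum) I.val)
        (P a + Multiset.map (fun i => (P i).sum) I.val) := by
      refine ⟨(P a).sum, P a, Multiset.mem_cons_self _ _, hP a (mem_insert_self _ _), rfl, ?_⟩
      rw [Multiset.erase_cons_head, add_comm]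
    exact Relation.ReflTransGen.head h2 (isRefinement_add h1)

/-- If the parts `m s` can be distributed to the parts `k i` such that every `k i` is covered,
then the order relation holds. -/
lemma below_of_groups {q t : ℕ} (k : Fin q → ℕ) (m : Fin t → ℕ) (hq : 0 < q)
    (hk : ∀ i, 0 < k i) (hm : ∀ s, 0 < m s) (ρ : Fin t → Option (Fin q))
    (h : ∀ i, k i ≤ ∑ s ∈ univ.filter (fun s => ρ s = some i), m s) :
    Below (Multiset.map k Finset.univ.val) (Multiset.map m Finset.univ.val) := by
  classical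
  let i₀ : Fin q := ⟨0, hq⟩
  let τ : Fin t → Fin q := fun s => (ρ s).getD i₀
  let P : Fin q → Multiset ℕ := fun i => ∑ s ∈ univ.filter (fun s => τ s = i), {m s}
  have hPsum : ∀ i, (P i).sum = ∑ s ∈ univ.filter (fun s => τ s = i), m s := by
    intro i
    simp only [P]
    rw [← Multiset.coe_sumAddMonoidHom, map_sum]
    simp
  have hge : ∀ i, k i ≤ (P i).sum := by
    intro i
    rw [hPsum]
    refine (h i).trans (sum_le_sum_of_subset ?_)
    intro s hs
    simp only [mem_filter, mem_univ, true_and] at hs ⊢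
    simp [τ, hs]
  have hPpos : ∀ i, ∀ a ∈ P i, 0 < a := by
    intro i a ha
    simp only [P] at ha
    rw [Multiset.mem_sum] at ha
    obtain ⟨s, _, hs⟩ := ha
    rw [Multiset.mem_singleton] at hs
    rw [hs]; exact hm s
  have hPpart : ∀ i, IsPart (P i) := by
    intro i
    refine ⟨fun h0 => ?_, hPpos i⟩
    have h1 := hge i
    have h2 := hk i
    rw [h0, Multiset.sum_zero] at h1
    omega
  refine ⟨Multiset.map (fun i => (P i).sum) Finset.univ.val, ?_, ?_⟩
  · rw [Multiset.rel_map]
    exact Multiset.rel_refl_of_refl_on (fun i _ => hge i)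
  · have h1 := isRefinement_sum univ P (fun i _ => hPpart i)
    have h2 : ∑ i, P i = Multiset.map m Finset.univ.val := by
      simp only [P]
      rw [Finset.sum_fiberwise]
      rw [Finset.sum_eq_multiset_sum]
      rw [show (fun s => ({m s} : Multiset ℕ)) = (fun x : ℕ => ({x} : Multiset ℕ)) ∘ m from rfl,
        ← Multiset.map_map]
      exact Multiset.sum_map_singleton _
    rwa [h2] at h1

/-- Many parts are above everything of small sum. -/
lemma below_of_card {p r : Multiset ℕ} (hp : IsPart p) (hr : IsPart r)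
    (h : p.sum ≤ Multiset.card r) : Below p r := by
  classical
  obtain ⟨q, k, rfl⟩ := exists_indexing p
  obtain ⟨t, m, rfl⟩ := exists_indexing r
  have hk : ∀ i, 0 < k i := fun i => hp.2 _ (Multiset.mem_map_of_mem _ (Finset.mem_univ_val i))
  have hm : ∀ i, 0 < m i := fun i => hr.2 _ (Multiset.mem_map_of_mem _ (Finset.mem_univ_val i))
  have hq : 0 < q := by
    rcases Nat.eq_zero_or_pos q with rfl | h
    · exact absurd rfl hp.1
    · exact h
  have hcard : Fintype.card (Σ i, Fin (k i)) ≤ Fintype.card (Fin t) := by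
    simp only [Fintype.card_sigma, Fintype.card_fin]
    simpa [Finset.sum_eq_multiset_sum] using h
  obtain ⟨e⟩ := Function.Embedding.nonempty_of_card_le hcard
  let ρ : Fin t → Option (Fin q) := fun s =>
    if hs : ∃ x, e x = s then some hs.choose.1 else none
  have hρ : ∀ x, ρ (e x) = some x.1 := by
    intro x
    have hs : ∃ y, e y = e x := ⟨x, rfl⟩
    simp only [ρ, hs, dif_pos]
    rw [e.injective hs.choose_spec]
  refine below_of_groups k m hq hk hm ρ (fun i => ?_)
  have h1 : k i ≤ (univ.filter (fun s => ρ s = some i)).card := by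
    have : (univ.image (fun j : Fin (k i) => e ⟨i, j⟩)).card = k i := by
      rw [card_image_of_injective, card_univ, Fintype.card_fin]
      intro j j' hjj
      have := e.injective hjj
      simpa using this
    rw [← this]
    refine card_le_card ?_
    intro s hs
    obtain ⟨j, _, rfl⟩ := mem_image.mp hs
    simp [hρ]
  refine h1.trans ?_
  rw [card_eq_sum_ones]
  exact sum_le_sum fun s _ => hm s

/-- Antichains of partitions are finite. -/
lemma antichain_finite (S : Set (Multiset ℕ)) (hS : ∀ p ∈ S, IsPart p)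
    (hinc : ∀ p ∈ S, ∀ r ∈ S, p ≠ r → ¬ Below p r) : S.Finite := by
  classical
  rcases S.eq_empty_or_nonempty with rfl | ⟨p₀, hp₀⟩
  · exact Set.finite_empty
  have hlev : ∀ c : ℕ, (S ∩ {p | Multiset.card p = c}).Finite := by
    intro c
    by_contra hinf
    have hinf' : (S ∩ {p | Multiset.card p = c}).Infinite := hinf
    let f := hinf'.natEmbedding
    have hcard : ∀ n, ((f n : Multiset ℕ).sort (· ≤ ·)).length = c := by
      intro n
      rw [Multiset.length_sort]
      exact (f n).2.2
    let g : ℕ → Fin c → ℕ := fun n i => ((f n : Multiset ℕ).sort (· ≤ ·)).get (i.cast (hcard n).symm)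
    have hg : ∀ n, Multiset.map (g n) Finset.univ.val = (f n : Multiset ℕ) := by
      intro n
      rw [Fin.univ_val_map]
      conv_rhs => rw [← Multiset.sort_eq (f n : Multiset ℕ) (· ≤ ·)]
      congr 1
      refine List.ext_getElem (by simp [hcard]) ?_
      intro i h1 h2
      simp [g]
    obtain ⟨a, b, hab, hle⟩ := (wellQuasiOrdered_le (α := Fin c → ℕ)) g
    have hne : (f a : Multiset ℕ) ≠ (f b : Multiset ℕ) := by
      intro h
      have := f.injective (Subtype.ext h)
      omega
    refine hinc _ (f a).2.1 _ (f b).2.1 hne ⟨(f b : Multiset ℕ), ?_, Relation.ReflTransGen.refl⟩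
    rw [← hg a, ← hg b, Multiset.rel_map]
    exact Multiset.rel_refl_of_refl_on (fun i _ => hle i)
  have hsub : S ⊆ {p₀} ∪ ⋃ c ∈ Finset.range p₀.sum, (S ∩ {p | Multiset.card p = c}) := by
    intro p hp
    by_cases h : p = p₀
    · left; exact h
    · right
      have : Multiset.card p < p₀.sum := by
        by_contra hcon
        push Not at hcon
        exact hinc p₀ hp₀ p hp (Ne.symm h) (below_of_card (hS p₀ hp₀) (hS p hp) hcon)
      simp only [Set.mem_iUnion]
      exact ⟨Multiset.card p, by simpa using this, hp, rfl⟩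
  refine Set.Finite.subset ?_ hsub
  refine (Set.finite_singleton _).union ?_
  exact Set.Finite.biUnion (Finset.finite_toSet _) (fun c _ => hlev c)

/-! ### Choosability of the finite graphs -/

lemma choosable_seg (nb : ℕ → Finset ℕ) (hnb : ∀ v, ∀ u ∈ nb v, u < v) {q : ℕ} (k : Fin q → ℕ)
    (cls : ℕ → Fin q)
    (hbud : ∀ v, ((nb v).filter (fun u => cls u = cls v)).card < k (cls v)) (n : ℕ) :
    Choosable (Multiset.map k Finset.univ.val) (segGraph nb hnb n) := by
  classical
  rintro L ⟨_, q', k', C, hk', hdisj, _, hcard⟩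
  obtain ⟨σ, hσ⟩ := exists_matching k k' hk'.symm
  let A : ℕ → Finset ℕ := fun v =>
    if hv : v < n then (L ⟨v, hv⟩).filter (fun x => x ∈ C (σ (cls v))) else ∅
  have hA : ∀ v, v < n → (A v).card = k (cls v) := by
    intro v hv
    simp only [A, hv, dif_pos]
    rw [← hσ, ← hcard ⟨v, hv⟩ (σ (cls v)), ← Set.ncard_coe_finset]
    congr 1
    ext x
    simp
  obtain ⟨f, hf1, hf2⟩ := greedy nb hnb cls A n (fun v hv => by rw [hA v hv]; exact hbud v)
  have hf3 : ∀ v : Fin n, f v ∈ L v ∧ f v ∈ C (σ (cls v)) := by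
    intro v
    have := hf1 v v.2
    simp only [A, v.2, dif_pos, mem_filter] at this
    exact this
  refine ⟨fun v => f v, fun v => (hf3 v).1, ?_⟩
  have key : ∀ u v : Fin n, u.1 ∈ nb v.1 → f u ≠ f v := by
    intro u v huv
    by_cases hc : cls u = cls v
    · exact hf2 v v.2 u huv hc
    · intro heq
      have h1 := (hf3 u).2
      have h2 := (hf3 v).2
      rw [heq] at h1
      have hne : σ (cls u) ≠ σ (cls v) := fun h => hc (σ.injective h)
      exact (Set.disjoint_left.mp (hdisj _ _ hne)) h1 h2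
  intro u v huv
  rcases huv with h | h
  · exact key u v h
  · exact (key v u h).symm

lemma not_choosable_seg (nb : ℕ → Finset ℕ) (hnb : ∀ v, ∀ u ∈ nb v, u < v) {t : ℕ} (ht : 0 < t)
    (m : Fin t → ℕ) (hm : ∀ s, 0 < m s) (Lst : ℕ → Fin t → Finset ℕ)
    (hLst : ∀ v s, (Lst v s).card = m s) (n : ℕ)
    (hno : ¬ ∃ f : ℕ → Fin t × ℕ, (∀ v, (f v).2 ∈ Lst v (f v).1) ∧
      ∀ v < n, ∀ u ∈ nb v, f u ≠ f v) :
    ¬ Choosable (Multiset.map m Finset.univ.val) (segGraph nb hnb n) := by
  classical
  intro hch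
  apply hno
  let L : Fin n → Finset ℕ := fun v =>
    univ.biUnion (fun s : Fin t => (Lst v s).image (fun x => Nat.pair s x))
  have hmem : ∀ v y, y ∈ L v ↔ ∃ s : Fin t, ∃ x ∈ Lst v s, Nat.pair s x = y := by
    intro v y; simp [L]
  have hinj : ∀ s : Fin t, Function.Injective (fun x => Nat.pair (s : ℕ) x) := by
    intro s x y h
    simpa using h
  have hass : IsAssignment (Multiset.map m Finset.univ.val) L := by
    refine ⟨fun v => ?_, t, m,
      fun s => {y | (∃ v, y ∈ L v) ∧ (Nat.unpair y).1 = s}, rfl, ?_, ?_, ?_⟩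
    · simp only [L]
      rw [card_biUnion]
      · rw [← Finset.sum_eq_multiset_sum]
        refine sum_congr rfl (fun s _ => ?_)
        rw [card_image_of_injective _ (hinj s), hLst]
      · intro s _ s' _ hne
        simp only [Function.onFun]
        rw [Finset.disjoint_left]
        intro y hy hy'
        obtain ⟨x, _, rfl⟩ := mem_image.mp hy
        obtain ⟨x', _, h⟩ := mem_image.mp hy'
        rw [Nat.pair_eq_pair] at h
        exact hne (Fin.ext h.1.symm)
    · intro i j hij
      rw [Set.disjoint_left]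
      rintro y ⟨_, h1⟩ ⟨_, h2⟩
      exact hij (Fin.ext (h1.symm.trans h2))
    · ext y
      simp only [Set.mem_iUnion, Finset.mem_coe, Set.mem_ofPred_eq]
      constructor
      · rintro ⟨v, hv⟩
        obtain ⟨s, x, _, rfl⟩ := (hmem v y).mp hv
        exact ⟨s, ⟨v, hv⟩, by simp⟩
      · rintro ⟨_, h, _⟩; exact h
    · intro v s
      have : ((L v : Set ℕ) ∩ {y | (∃ v, y ∈ L v) ∧ (Nat.unpair y).1 = s})
          = (((Lst v s).image (fun x => Nat.pair s x) : Finset ℕ) : Set ℕ) := by
        ext y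
        simp only [Set.mem_inter_iff, Finset.mem_coe, Set.mem_ofPred_eq, mem_image]
        constructor
        · rintro ⟨hy, _, hs⟩
          obtain ⟨s', x, hx, rfl⟩ := (hmem v y).mp hy
          have : s' = s := Fin.ext (by simpa using hs)
          subst this
          exact ⟨x, hx, rfl⟩
        · rintro ⟨x, hx, rfl⟩
          have : Nat.pair s x ∈ L v := (hmem v _).mpr ⟨s, x, hx, rfl⟩
          exact ⟨this, ⟨v, this⟩, by simp⟩
      rw [this, Set.ncard_coe_finset, card_image_of_injective _ (hinj s), hLst]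
  obtain ⟨f, hf1, hf2⟩ := hch L hass
  have hex : ∀ v : Fin n, ∃ s : Fin t, ∃ x ∈ Lst v s, Nat.pair s x = f v :=
    fun v => (hmem v _).mp (hf1 v)
  choose s x hx hsx using hex
  have hex2 : ∀ v, ∃ y, y ∈ Lst v ⟨0, ht⟩ := by
    intro v
    have : 0 < (Lst v ⟨0, ht⟩).card := by rw [hLst]; exact hm _
    exact card_pos.mp this
  choose y hy using hex2
  refine ⟨fun v => if hv : v < n then (s ⟨v, hv⟩, x ⟨v, hv⟩) else (⟨0, ht⟩, y v), ?_, ?_⟩
  · intro v
    by_cases hv : v < n
    · simp only [hv, dif_pos]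
      exact hx ⟨v, hv⟩
    · simp only [hv, dif_neg, not_false_eq_true]
      exact hy v
  · intro v hv u hu
    have huv := hnb v u hu
    have hun : u < n := by omega
    simp only [hv, hun, dif_pos]
    intro heq
    have h1 := hf2 ⟨u, hun⟩ ⟨v, hv⟩ (Or.inl hu)
    apply h1
    rw [← hsx ⟨u, hun⟩, ← hsx ⟨v, hv⟩]
    rw [Prod.mk.injEq] at heq
    rw [heq.1, heq.2]

/-- One partition on the negative side. -/
lemma separate_one (A : Finset (Multiset ℕ)) (r : Multiset ℕ) (hA : ∀ p ∈ A, IsPart p)
    (hr : IsPart r) (hinc : ∀ p ∈ A, ¬ Below p r) :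
    ∃ (n : ℕ) (G : SimpleGraph (Fin n)), (∀ p ∈ A, Choosable p G) ∧ ¬ Choosable r G := by
  classical
  obtain ⟨t, m, rfl⟩ := exists_indexing r
  have hm : ∀ i, 0 < m i := fun i => hr.2 _ (Multiset.mem_map_of_mem _ (Finset.mem_univ_val i))
  have ht : 0 < t := by
    rcases Nat.eq_zero_or_pos t with rfl | h
    · exact absurd rfl hr.1
    · exact h
  let ι : Type := {p // p ∈ A}
  choose q k hk using fun a : ι => exists_indexing a.1
  have hkpos : ∀ a i, 0 < k a i := by
    intro a i
    have := (hA a.1 a.2).2 (k a i)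
    rw [← hk a] at this
    exact this (Multiset.mem_map_of_mem _ (Finset.mem_univ_val i))
  have hq : ∀ a, 0 < q a := by
    intro a
    rcases Nat.eq_zero_or_pos (q a) with h | h
    · exfalso
      have h1 := (hA a.1 a.2).1
      have h2 := hk a
      apply h1
      rw [← h2]
      have : IsEmpty (Fin (q a)) := by rw [h]; infer_instance
      simp
    · exact h
  have hle : ∀ (a : ι) (ρ : Fin t → Option (Fin (q a))), ∃ i,
      (∑ s ∈ univ.filter (fun s => ρ s = some i), m s) < k a i := by
    intro a ρ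
    by_contra hcon
    push Not at hcon
    apply hinc a.1 a.2
    rw [← hk a]
    exact below_of_groups (k a) m (hq a) (hkpos a) hm ρ hcon
  obtain ⟨cls, Lst, nb, h1, h2, h3, h4⟩ := exists_infinite (ι := ι) (R := fun a => Fin (q a))
    (fun a => ⟨0, hq a⟩) m k hkpos hle
  obtain ⟨n, hn⟩ : ∃ n : ℕ, ¬ ∃ f : ℕ → Fin t × ℕ, (∀ v, (f v).2 ∈ Lst v (f v).1) ∧
      ∀ v < n, ∀ u ∈ nb v, f u ≠ f v := by
    by_contra hcon
    push Not at hcon
    exact h4 (compactness Lst nb hcon)
  refine ⟨n, segGraph nb h2 n, ?_, not_choosable_seg nb h2 ht m hm Lst h1 n hn⟩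
  intro p hp
  have := choosable_seg nb h2 (k ⟨p, hp⟩) (fun v => cls v ⟨p, hp⟩) (fun v => h3 v ⟨p, hp⟩) n
  rwa [hk ⟨p, hp⟩] at this

/-! ### Disjoint unions -/

lemma choosable_sum {V W : Type} {p : Multiset ℕ} {G : SimpleGraph V} {H : SimpleGraph W}
    (hG : Choosable p G) (hH : Choosable p H) : Choosable p (G ⊕g H) := by
  rintro L ⟨hL, q, k, C, hk, hdisj, hun, hcard⟩
  have aux : ∀ {U : Type} (e : U → V ⊕ W), IsAssignment p (fun u => L (e u)) := by
    intro U e
    refine ⟨fun u => hL (e u), q, k, fun i => C i ∩ ⋃ u, (L (e u) : Set ℕ), hk, ?_, ?_, ?_⟩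
    · intro i j hij
      exact (hdisj i j hij).mono Set.inter_subset_left Set.inter_subset_left
    · ext y
      simp only [Set.mem_iUnion, Set.mem_inter_iff, Finset.mem_coe]
      constructor
      · rintro ⟨u, hu⟩
        have : y ∈ ⋃ i, C i := by
          rw [← hun]
          exact Set.mem_iUnion.mpr ⟨e u, hu⟩
        obtain ⟨i, hi⟩ := Set.mem_iUnion.mp this
        exact ⟨i, hi, u, hu⟩
      · rintro ⟨i, _, h⟩; exact h
    · intro u i
      rw [← hcard (e u) i]
      congr 1
      ext y
      simp only [Set.mem_inter_iff, Set.mem_iUnion, Finset.mem_coe]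
      constructor
      · rintro ⟨h1, h2, _⟩; exact ⟨h1, h2⟩
      · rintro ⟨h1, h2⟩; exact ⟨h1, h2, u, h1⟩
  obtain ⟨f, hf1, hf2⟩ := hG _ (aux Sum.inl)
  obtain ⟨g, hg1, hg2⟩ := hH _ (aux Sum.inr)
  refine ⟨Sum.elim f g, ?_, ?_⟩
  · rintro (v | w)
    · exact hf1 v
    · exact hg1 w
  · rintro (u | u) (v | v) h
    · exact hf2 u v (by simpa using h)
    · simp at h
    · simp at h
    · exact hg2 u v (by simpa using h)

lemma not_choosable_of_emb {V W : Type} {p : Multiset ℕ} {G : SimpleGraph V} {H : SimpleGraph W}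
    (e : V → W) (he : Function.Injective e) (hadj : ∀ u v, G.Adj u v → H.Adj (e u) (e v))
    (hG : ¬ Choosable p G) : ¬ Choosable p H := by
  classical
  intro hH
  apply hG
  rintro L ⟨hL, q, k, C, hk, hdisj, hun, hcard⟩
  rcases isEmpty_or_nonempty V with hV | ⟨⟨v₀⟩⟩
  · exact ⟨fun v => hV.elim v, fun v => hV.elim v, fun v => hV.elim v⟩
  let L' : W → Finset ℕ := fun w => if h : ∃ v, e v = w then L h.choose else L v₀
  have hL' : ∀ w, ∃ v, L' w = L v := by
    intro w
    by_cases h : ∃ v, e v = w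
    · exact ⟨h.choose, by simp only [L', h, dif_pos]⟩
    · exact ⟨v₀, by simp only [L', h, dif_neg, not_false_eq_true]⟩
  have hL'e : ∀ v, L' (e v) = L v := by
    intro v
    have h : ∃ u, e u = e v := ⟨v, rfl⟩
    simp only [L', h, dif_pos]
    rw [he h.choose_spec]
  have hass : IsAssignment p L' := by
    refine ⟨fun w => ?_, q, k, C, hk, hdisj, ?_, ?_⟩
    · obtain ⟨v, hv⟩ := hL' w; rw [hv]; exact hL v
    · rw [← hun]
      ext y
      simp only [Set.mem_iUnion, Finset.mem_coe]
      constructor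
      · rintro ⟨w, hw⟩
        obtain ⟨v, hv⟩ := hL' w
        exact ⟨v, hv ▸ hw⟩
      · rintro ⟨v, hv⟩
        exact ⟨e v, by rw [hL'e]; exact hv⟩
    · intro w i
      obtain ⟨v, hv⟩ := hL' w; rw [hv]; exact hcard v i
  obtain ⟨f, hf1, hf2⟩ := hH L' hass
  refine ⟨fun v => f (e v), fun v => ?_, fun u v h => hf2 _ _ (hadj u v h)⟩
  have := hf1 (e v)
  rwa [hL'e] at this

/-- Finitely many partitions on the negative side. -/
lemma separate_finite (A B : Finset (Multiset ℕ)) (hA : ∀ p ∈ A, IsPart p)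
    (hB : ∀ r ∈ B, IsPart r) (hinc : ∀ p ∈ A, ∀ r ∈ B, ¬ Below p r) :
    ∃ (V : Type) (_ : Finite V) (G : SimpleGraph V),
      (∀ p ∈ A, Choosable p G) ∧ ∀ r ∈ B, ¬ Choosable r G := by
  classical
  induction B using Finset.induction_on with
  | empty =>
    refine ⟨Empty, inferInstance, ⊥, fun p _ L _ => ?_, by simp⟩
    exact ⟨fun v => v.elim, fun v => v.elim, fun v => v.elim⟩
  | @insert r B _ ih =>
    obtain ⟨V, hV, G, hG1, hG2⟩ := ih (fun r hr => hB r (mem_insert_of_mem hr))
      (fun p hp r hr => hinc p hp r (mem_insert_of_mem hr))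
    obtain ⟨n, H, hH1, hH2⟩ := separate_one A r hA (hB r (mem_insert_self _ _))
      (fun p hp => hinc p hp r (mem_insert_self _ _))
    refine ⟨V ⊕ Fin n, inferInstance, G ⊕g H, fun p hp => choosable_sum (hG1 p hp) (hH1 p hp), ?_⟩
    intro r' hr'
    rcases mem_insert.mp hr' with rfl | hr'
    · exact not_choosable_of_emb Sum.inr Sum.inr_injective (fun u v h => by simpa using h) hH2
    · exact not_choosable_of_emb Sum.inl Sum.inl_injective (fun u v h => by simpa using h)
        (hG2 r' hr')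

/-! ### The result -/

/-- Let `A`, `B` be disjoint sets of partitions such that any two distinct partitions in `A ∪ B`
are incomparable. Then there is a finite graph that is `p`-choosable for every `p ∈ A` and not
`r`-choosable for every `r ∈ B`. -/
theorem result (A B : Set (Multiset ℕ)) (hpart : ∀ p ∈ A ∪ B, IsPart p) (hdisj : Disjoint A B)
    (hinc : ∀ p ∈ A ∪ B, ∀ r ∈ A ∪ B, p ≠ r → ¬ Below p r) :
    ∃ (V : Type) (_ : Finite V) (G : SimpleGraph V),
      (∀ p ∈ A, Choosable p G) ∧ ∀ r ∈ B, ¬ Choosable r G := by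
  have hfin : (A ∪ B).Finite := antichain_finite (A ∪ B) hpart hinc
  have hA : A.Finite := hfin.subset Set.subset_union_left
  have hB : B.Finite := hfin.subset Set.subset_union_right
  obtain ⟨V, hV, G, h1, h2⟩ := separate_finite hA.toFinset hB.toFinset
    (fun p hp => hpart p (Or.inl (by simpa using hp)))
    (fun r hr => hpart r (Or.inr (by simpa using hr)))
    (fun p hp r hr => hinc p (Or.inl (by simpa using hp)) r (Or.inr (by simpa using hr))
      (fun h => by
        subst h
        exact Set.disjoint_left.mp hdisj (hA.mem_toFinset.mp hp) (hB.mem_toFinset.mp hr)))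
  exact ⟨V, hV, G, fun p hp => h1 p (by simpa using hp), fun r hr => h2 r (by simpa using hr)⟩

end Pool.Agent.Results.MP_6532c6_co.Separation
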